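import Pool.Agent.Helper92.BW.GoalsB

/-!
# Packet BW-FRV: the frames
-/

namespace Pool.Agent.Helper77.BW

open Pool.Agent.Bin Pool.Agent.Helper92.FR Pool.Agent.Helper92.BW

noncomputable section

theorem dot_val (x : List Qn) : ∀ (n : ℕ) (y : List Qn), x.length = n → y.length = n →
    Qn.val (dot x y) = ip (lv n x) (lv n y) := by
  induction x with
  | nil =>
    intro n y hx hy
    simp only [List.length_nil] at hx
    subst hx
    simp [dot, ip]
  | cons a x ih =>
    intro n y hx hy
    cases y with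
    | nil =>
      simp only [List.length_nil] at hy
      subst hy
      simp at hx
    | cons b y =>
      cases n with
      | zero => simp at hx
      | succ m =>
        have hx' : x.length = m := by simpa using hx
        have hy' : y.length = m := by simpa using hy
        have h := ih m y hx' hy'
        unfold dot at h ⊢
        unfold ip at h ⊢
        rw [Qn.val_sum] at h ⊢
        rw [Fin.sum_univ_succ]
        simp only [List.zipWith_cons_cons, List.map_cons, List.sum_cons, Qn.val_mul]
        rw [h]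
        simp [lv]

theorem qnz_iff (x : Qn) : qnz x = true ↔ x.val ≠ 0 := by
  unfold qnz
  rw [decide_eq_true_eq]
  constructor
  · intro h h2
    apply h
    unfold Qn.val at h2
    have h3 := Qn.den_pos x
    have h4 : (x.1.val : ℝ) - x.2.1.val = 0 := by
      rcases div_eq_zero_iff.1 h2 with h5 | h5
      · exact h5
      · exact absurd h5 h3.ne'
    have h5 : (x.1.val : ℝ) = x.2.1.val := by linarith
    have h6 : x.1.val = x.2.1.val := by exact_mod_cast h5
    cases h7 : x.1
    cases h8 : x.2.1
    rw [h7, h8] at h6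
    simp only at h6
    rw [h6]
  · intro h h2
    apply h
    unfold Qn.val
    rw [h2]
    simp

theorem lv_smul (n : ℕ) (c : Qn) (v : List Qn) : lv n (smul c v) = fun i => c.val * lv n v i := by
  funext i
  unfold lv smul
  by_cases h : (i : ℕ) < v.length
  · rw [List.getD_eq_getElem _ _ (by simpa using h), List.getD_eq_getElem _ _ h]
    simp
  · rw [List.getD_eq_default _ _ (by simpa using h), List.getD_eq_default _ _ (by simpa using h)]
    simp

theorem lv_rowsub (n : ℕ) (c : Qn) (x y : List Qn) (hx : x.length = n) (hy : y.length = n) :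
    lv n (rowsub c x y) = fun i => lv n x i - c.val * lv n y i := by
  funext i
  unfold lv rowsub
  have h1 : (i : ℕ) < x.length := by rw [hx]; exact i.isLt
  have h2 : (i : ℕ) < y.length := by rw [hy]; exact i.isLt
  rw [List.getD_eq_getElem _ _ (by simp only [List.length_zipWith]; omega),
    List.getD_eq_getElem _ _ h1, List.getD_eq_getElem _ _ h2]
  simp

theorem lv_zerov (n : ℕ) : lv n (zerov n) = 0 := by
  funext i
  unfold lv zerov
  rw [List.getD_eq_getElem _ _ (by simp)]
  simp

theorem lv_unitv (n v : ℕ) : lv n (unitv n v) = fun i => if i.val = v then 1 else 0 := by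
  funext i
  unfold lv unitv
  rw [List.getD_eq_getElem _ _ (by simp)]
  simp only [List.getElem_map, List.getElem_range]
  split_ifs <;> simp

theorem exists_max (m : ℕ) (φ : ℕ → ℝ) : ∃ i < m + 1, ∀ i' < m + 1, φ i' ≤ φ i := by
  obtain ⟨i, hi, h⟩ := Finset.exists_max_image (Finset.range (m + 1)) φ ⟨0, by simp⟩
  exact ⟨i, by simpa using hi, fun i' hi' => h i' (by simpa using hi')⟩

theorem amx_spec (n : ℕ) (U : List (List Qn)) (g : List Qn) :
    amx n U g < n + 1 ∧ ∀ i' < n + 1, |(dot g (U.getD i' [])).val| ≤ |(mxv n U g).val| := by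
  unfold mxv
  obtain ⟨i, hi, hmax⟩ := exists_max n (fun i => |(dot g (U.getD i [])).val|)
  have h0 : ∃ a, ((List.range (n + 1)).find? fun i => (List.range (n + 1)).all fun i' =>
      Qn.le (Qn.abs (dot g (U.getD i' []))) (Qn.abs (dot g (U.getD i [])))) = some a := by
    rw [← Option.isSome_iff_exists, List.find?_isSome]
    refine ⟨i, by simpa using hi, ?_⟩
    rw [List.all_eq_true]
    intro i' hi'
    rw [Qn.le_iff, Qn.val_abs, Qn.val_abs]
    exact hmax i' (by simpa using hi')
  obtain ⟨a, ha⟩ := h0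
  have h1 : amx n U g = a := by
    unfold amx
    rw [ha]
    rfl
  have h2 := List.mem_of_find?_eq_some ha
  have h3 := List.find?_some ha
  rw [h1]
  refine ⟨by simpa using h2, fun i' hi' => ?_⟩
  have h4 := (List.all_eq_true.1 h3) i' (by simpa using hi')
  rw [Qn.le_iff, Qn.val_abs, Qn.val_abs] at h4
  exact h4

theorem ip_smul_left {n : ℕ} (c : ℝ) (x y : Fin n → ℝ) :
    ip (fun i => c * x i) y = c * ip x y := by
  unfold ip
  rw [Finset.mul_sum]
  exact Finset.sum_congr rfl fun i _ => by ring

theorem ip_smul_right {n : ℕ} (c : ℝ) (x y : Fin n → ℝ) :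
    ip x (fun i => c * y i) = c * ip x y := by
  unfold ip
  rw [Finset.mul_sum]
  exact Finset.sum_congr rfl fun i _ => by ring

theorem ip_sub_left {n : ℕ} (c : ℝ) (x z y : Fin n → ℝ) :
    ip (fun i => x i - c * z i) y = ip x y - c * ip z y := by
  unfold ip
  rw [Finset.mul_sum, ← Finset.sum_sub_distrib]
  exact Finset.sum_congr rfl fun i _ => by ring

theorem ip_comb {n : ℕ} (c : ℕ → ℝ) (g : ℕ → Fin n → ℝ) (f w : Fin n → ℝ) (j : ℕ) :
    ip (fun x => f x - ∑ l ∈ Finset.range j, c l * g l x) w =
      ip f w - ∑ l ∈ Finset.range j, c l * ip (g l) w := by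
  induction j with
  | zero => simp
  | succ j ih =>
    have h1 : (fun x => f x - ∑ l ∈ Finset.range (j + 1), c l * g l x) =
        fun x => (f x - ∑ l ∈ Finset.range j, c l * g l x) - c j * g j x := by
      funext x
      rw [Finset.sum_range_succ]
      ring
    rw [h1, ip_sub_left, ih, Finset.sum_range_succ]
    ring

/-- The invariant. -/
structure Good (n m : ℕ) (U Φ : List (List Qn)) (F : Pool.Agent.Helper92.BW.Frm) : Prop where
  tri : Tri n m F
  bd : ∀ j < m, ∀ i : Fin (n + 1), |ip (gv n F j) (lv n (U.getD i []))| ≤ 1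
  yy : ∀ j < m, yv n F j = 0 ∨ ∃ i : Fin (n + 1),
    yv n F j = lv n (U.getD i []) ∨ yv n F j = -lv n (U.getD i [])

theorem resk_spec (n m : ℕ) (F : Pool.Agent.Helper92.BW.Frm) (hF : Tri n m F) : ∀ j ≤ m, ∀ f : List Qn, f.length = n →
    (resk j F f).length = n ∧ (∀ l < j, ip (lv n (resk j F f)) (yv n F l) = 0) ∧
    ∃ c : ℕ → ℝ, lv n (resk j F f) =
      fun x => lv n f x - ∑ l ∈ Finset.range j, c l * gv n F l x := by
  intro j
  induction j with
  | zero =>
    intro _ f hf
    refine ⟨hf, fun l hl => absurd hl (by omega), fun _ => 0, ?_⟩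
    funext x
    simp [resk]
  | succ j ih =>
    intro hj f hf
    obtain ⟨h1, h2, c, hc⟩ := ih (by omega) f hf
    have hg := hF.lg j (by omega)
    have hy := hF.ly j (by omega)
    have hd : (dot (resk j F f) (yE F j)).val = ip (lv n (resk j F f)) (yv n F j) :=
      dot_val _ n _ h1 hy
    have hv : lv n (resk (j + 1) F f) = fun i => lv n (resk j F f) i -
        ip (lv n (resk j F f)) (yv n F j) * gv n F j i := by
      show lv n (rowsub _ _ _) = _
      rw [lv_rowsub n _ _ _ h1 hg, hd]
      rfl
    refine ⟨?_, ?_, ?_⟩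
    · show (rowsub _ _ _).length = n
      unfold rowsub
      rw [List.length_zipWith, h1, hg, min_self]
    · intro l hl
      rw [hv, ip_sub_left]
      rcases Nat.lt_succ_iff_lt_or_eq.1 hl with h3 | h3
      · rw [h2 l h3, hF.low j (by omega) l h3]
        ring
      · subst h3
        rcases hF.diag l (by omega) with h4 | h4
        · rw [h4]
          ring
        · rw [h4.2]
          simp [ip]
    · refine ⟨fun l => if l = j then ip (lv n (resk j F f)) (yv n F j) else c l, ?_⟩
      rw [hv]
      funext x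
      rw [Finset.sum_range_succ]
      beta_reduce
      rw [if_pos rfl]
      have h5 : ∑ l ∈ Finset.range j, (if l = j then ip (lv n (resk j F f)) (yv n F j) else c l) *
          gv n F l x = ∑ l ∈ Finset.range j, c l * gv n F l x := by
        refine Finset.sum_congr rfl fun l hl => ?_
        rw [Finset.mem_range] at hl
        rw [if_neg (by omega)]
      rw [h5, hc]
      ring

theorem gE_append_lt (F : Pool.Agent.Helper92.BW.Frm) (a : List Qn × List Qn) (j : ℕ) (h : j < F.length) :
    gE (F ++ [a]) j = gE F j := by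
  unfold gE
  rw [List.getD_append _ _ _ _ h]

theorem yE_append_lt (F : Pool.Agent.Helper92.BW.Frm) (a : List Qn × List Qn) (j : ℕ) (h : j < F.length) :
    yE (F ++ [a]) j = yE F j := by
  unfold yE
  rw [List.getD_append _ _ _ _ h]

theorem gE_append_eq (F : Pool.Agent.Helper92.BW.Frm) (a : List Qn × List Qn) : gE (F ++ [a]) F.length = a.1 := by
  unfold gE
  rw [List.getD_append_right _ _ _ _ (le_refl _)]
  simp

theorem yE_append_eq (F : Pool.Agent.Helper92.BW.Frm) (a : List Qn × List Qn) : yE (F ++ [a]) F.length = a.2 := by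
  unfold yE
  rw [List.getD_append_right _ _ _ _ (le_refl _)]
  simp

theorem good_append {n m : ℕ} {U Φ : List (List Qn)} {F : Pool.Agent.Helper92.BW.Frm} (hF : Good n m U Φ F)
    (a : List Qn × List Qn) (h1 : a.1.length = n) (h2 : a.2.length = n)
    (h3 : ip (lv n a.1) (lv n a.2) = 1 ∨ (lv n a.1 = 0 ∧ lv n a.2 = 0))
    (h4 : ∀ l < m, ip (lv n a.1) (yv n F l) = 0)
    (h5 : ∀ i : Fin (n + 1), |ip (lv n a.1) (lv n (U.getD i []))| ≤ 1)
    (h6 : lv n a.2 = 0 ∨ ∃ i : Fin (n + 1),
      lv n a.2 = lv n (U.getD i []) ∨ lv n a.2 = -lv n (U.getD i [])) :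
    Good n (m + 1) U Φ (F ++ [a]) := by
  have hl := hF.tri.len
  have e1 : ∀ j < m, gE (F ++ [a]) j = gE F j := fun j hj => gE_append_lt F a j (by omega)
  have e2 : ∀ j < m, yE (F ++ [a]) j = yE F j := fun j hj => yE_append_lt F a j (by omega)
  have e3 : gE (F ++ [a]) m = a.1 := by rw [← hl]; exact gE_append_eq F a
  have e4 : yE (F ++ [a]) m = a.2 := by rw [← hl]; exact yE_append_eq F a
  have g1 : ∀ j < m, gv n (F ++ [a]) j = gv n F j := fun j hj => by unfold gv; rw [e1 j hj]
  have g2 : ∀ j < m, yv n (F ++ [a]) j = yv n F j := fun j hj => by unfold yv; rw [e2 j hj]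
  have g3 : gv n (F ++ [a]) m = lv n a.1 := by unfold gv; rw [e3]
  have g4 : yv n (F ++ [a]) m = lv n a.2 := by unfold yv; rw [e4]
  refine ⟨⟨by simp [hl], ?_, ?_, ?_, ?_⟩, ?_, ?_⟩
  · intro j hj
    rcases Nat.lt_succ_iff_lt_or_eq.1 hj with h | h
    · rw [e1 j h]; exact hF.tri.lg j h
    · subst h; rw [e3]; exact h1
  · intro j hj
    rcases Nat.lt_succ_iff_lt_or_eq.1 hj with h | h
    · rw [e2 j h]; exact hF.tri.ly j h
    · subst h; rw [e4]; exact h2
  · intro j hj
    rcases Nat.lt_succ_iff_lt_or_eq.1 hj with h | h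
    · rw [g1 j h, g2 j h]; exact hF.tri.diag j h
    · subst h; rw [g3, g4]; exact h3
  · intro j hj l hlj
    rcases Nat.lt_succ_iff_lt_or_eq.1 hj with h | h
    · rw [g1 j h, g2 l (by omega)]; exact hF.tri.low j h l hlj
    · subst h; rw [g3, g2 l hlj]; exact h4 l hlj
  · intro j hj i
    rcases Nat.lt_succ_iff_lt_or_eq.1 hj with h | h
    · rw [g1 j h]; exact hF.bd j h i
    · subst h; rw [g3]; exact h5 i
  · intro j hj
    rcases Nat.lt_succ_iff_lt_or_eq.1 hj with h | h
    · rw [g2 j h]; exact hF.yy j h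
    · subst h; rw [g4]; exact h6

theorem good_prn {n m : ℕ} {U Φ : List (List Qn)} {F : Pool.Agent.Helper92.BW.Frm} (hF : Good n m U Φ F)
    (hU : U.length = n + 1) (hU' : ∀ u ∈ U, u.length = n) (f : List Qn) (hf : f.length = n)
    (hx : (mxv n U (resk m F f)).val ≠ 0) :
    Good n (m + 1) U Φ (F ++ [prn n U (resk m F f)]) := by
  obtain ⟨r1, r2, c, hc⟩ := resk_spec n m F hF.tri m (le_refl _) f hf
  have hUi : ∀ i < n + 1, (U.getD i []).length = n := by
    intro i hi
    rw [List.getD_eq_getElem _ _ (by omega)]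
    exact hU' _ (List.getElem_mem _)
  obtain ⟨a1, a2⟩ := amx_spec n U (resk m F f)
  set r := resk m F f with hr
  set x := (mxv n U r).val with hxx
  have hpos : 0 < |x| := abs_pos.2 hx
  have hxd : x = ip (lv n r) (lv n (U.getD (amx n U r) [])) := by
    rw [hxx]
    unfold mxv
    exact dot_val _ n _ r1 (hUi _ a1)
  have p1 : lv n (prn n U r).1 = fun i => |x|⁻¹ * lv n r i := by
    show lv n (smul _ _) = _
    rw [lv_smul, Qn.val_inv, Qn.val_abs]
  have p2 : lv n (prn n U r).2 = fun i => (x * |x|⁻¹) * lv n (U.getD (amx n U r) []) i := by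
    show lv n (smul _ _) = _
    rw [lv_smul, Qn.val_mul, Qn.val_inv, Qn.val_abs]
  apply good_append hF
  · show (smul _ _).length = n
    unfold smul
    rw [List.length_map, r1]
  · show (smul _ _).length = n
    unfold smul
    rw [List.length_map, hUi _ a1]
  · left
    rw [p1, p2, ip_smul_left, ip_smul_right, ← hxd]
    have h7 : x * x = |x| * |x| := (abs_mul_abs_self x).symm
    field_simp
    nlinarith [h7]
  · intro l hl
    rw [p1, ip_smul_left, r2 l hl, mul_zero]
  · intro i
    rw [p1, ip_smul_left, abs_mul, abs_inv, abs_abs]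
    have h8 := a2 i i.isLt
    rw [dot_val _ n _ r1 (hUi i i.isLt)] at h8
    rw [inv_mul_le_iff₀ hpos, mul_one]
    exact h8
  · right
    refine ⟨⟨amx n U r, a1⟩, ?_⟩
    rcases lt_or_gt_of_ne hx with h9 | h9
    · right
      rw [p2]
      funext i
      rw [abs_of_neg h9]
      simp only [Pi.neg_apply]
      field_simp
    · left
      rw [p2]
      funext i
      rw [abs_of_pos h9]
      field_simp

theorem good_zero {n m : ℕ} {U Φ : List (List Qn)} {F : Pool.Agent.Helper92.BW.Frm} (hF : Good n m U Φ F) :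
    Good n (m + 1) U Φ (F ++ [(zerov n, zerov n)]) := by
  apply good_append hF
  · simp [zerov]
  · simp [zerov]
  · right
    exact ⟨lv_zerov n, lv_zerov n⟩
  · intro l _
    rw [lv_zerov]
    simp [ip]
  · intro i
    rw [lv_zerov]
    simp [ip]
  · left
    exact lv_zerov n

theorem frm_good (n : ℕ) (U Φ : List (List Qn)) (hU : U.length = n + 1)
    (hU' : ∀ u ∈ U, u.length = n) (hΦ : ∀ f ∈ Φ, f.length = n) : ∀ j : ℕ,
    Good n j U Φ (frm n Φ U j) ∧ ∀ l < j, ∀ w : Fin n → ℝ, (∀ f ∈ Φ, ip (lv n f) w = 0) →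
      ip (gv n (frm n Φ U j) l) w = 0 := by
  intro j
  induction j with
  | zero =>
    refine ⟨⟨⟨rfl, ?_, ?_, ?_, ?_⟩, ?_, ?_⟩, ?_⟩ <;> intro j hj <;> omega
  | succ j ih =>
    obtain ⟨h1, h2⟩ := ih
    have hl := h1.tri.len
    have key : ∀ a : List Qn × List Qn, (∀ w : Fin n → ℝ, (∀ f ∈ Φ, ip (lv n f) w = 0) →
        ip (lv n a.1) w = 0) → ∀ l < j + 1, ∀ w : Fin n → ℝ, (∀ f ∈ Φ, ip (lv n f) w = 0) →
        ip (gv n (frm n Φ U j ++ [a]) l) w = 0 := by
      intro a ha l hlj w hw
      rcases Nat.lt_succ_iff_lt_or_eq.1 hlj with h | h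
      · have e1 : gv n (frm n Φ U j ++ [a]) l = gv n (frm n Φ U j) l := by
          unfold gv
          rw [gE_append_lt _ _ _ (by omega)]
        rw [e1]
        exact h2 l h w hw
      · have e1 : gv n (frm n Φ U j ++ [a]) l = lv n a.1 := by
          unfold gv
          have := gE_append_eq (frm n Φ U j) a
          rw [hl] at this
          rw [h, this]
        rw [e1]
        exact ha w hw
    show Good n (j + 1) U Φ (frm n Φ U j ++ [nxt n j (frm n Φ U j) Φ U]) ∧ _
    unfold nxt
    cases hfind : (Φ.find? fun f => qnz (mxv n U (resk j (frm n Φ U j) f))) with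
    | none =>
      simp only [Option.map_none, Option.getD_none]
      refine ⟨good_zero h1, ?_⟩
      have e2 : frm n Φ U (j + 1) = frm n Φ U j ++ [(zerov n, zerov n)] := by
        show frm n Φ U j ++ [nxt n j (frm n Φ U j) Φ U] = _
        unfold nxt
        rw [hfind]
        rfl
      rw [e2]
      apply key
      intro w _
      simp only
      rw [lv_zerov]
      simp [ip]
    | some f =>
      simp only [Option.map_some, Option.getD_some]
      have hfm := List.mem_of_find?_eq_some hfind
      have hfq := List.find?_some hfind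
      have hx : (mxv n U (resk j (frm n Φ U j) f)).val ≠ 0 := (qnz_iff _).1 (by simpa using hfq)
      refine ⟨good_prn h1 hU hU' f (hΦ f hfm) hx, ?_⟩
      have e2 : frm n Φ U (j + 1) = frm n Φ U j ++ [prn n U (resk j (frm n Φ U j) f)] := by
        show frm n Φ U j ++ [nxt n j (frm n Φ U j) Φ U] = _
        unfold nxt
        rw [hfind]
        rfl
      rw [e2]
      apply key
      intro w hw
      obtain ⟨r1, r2, c, hc⟩ := resk_spec n j (frm n Φ U j) h1.tri j (le_refl _) f (hΦ f hfm)
      have p1 : lv n (prn n U (resk j (frm n Φ U j) f)).1 =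
          fun i => |(mxv n U (resk j (frm n Φ U j) f)).val|⁻¹ *
            lv n (resk j (frm n Φ U j) f) i := by
        show lv n (smul _ _) = _
        rw [lv_smul, Qn.val_inv, Qn.val_abs]
      rw [p1, ip_smul_left, hc, ip_comb, hw f hfm]
      have h9 : ∑ l ∈ Finset.range j, c l * ip (gv n (frm n Φ U j) l) w = 0 :=
        Finset.sum_eq_zero fun l hl => by
          rw [h2 l (by simpa using hl) w hw, mul_zero]
      rw [h9]
      ring

theorem frv : FrvStmt := by
  intro n k v U Φ hv hU hU' hspan hΦ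
  obtain ⟨h1, h2⟩ := frm_good n U Φ hU hU' (fun f hf => (hΦ f hf).1) k
  have hvan : ∀ l < k, ∀ x : Fin n, x.val ≤ v → gv n (frm n Φ U k) l x = 0 := by
    intro l hl x hx
    have h3 := h2 l hl (fun y => if y = x then 1 else 0) (by
      intro f hf
      unfold ip
      rw [Finset.sum_eq_single x]
      · beta_reduce
        rw [if_pos rfl, mul_one]
        exact (hΦ f hf).2 x hx
      · intro y _ hy
        beta_reduce
        rw [if_neg hy, mul_zero]
      · intro h
        exact absurd (Finset.mem_univ x) h)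
    unfold ip at h3
    rw [Finset.sum_eq_single x] at h3
    · beta_reduce at h3
      rwa [if_pos rfl, mul_one] at h3
    · intro y _ hy
      beta_reduce
      rw [if_neg hy, mul_zero]
    · intro h
      exact absurd (Finset.mem_univ x) h
  have hun : (unitv n v).length = n := by simp [unitv]
  obtain ⟨r1, r2, c, hc⟩ := resk_spec n k (frm n Φ U k) h1.tri k (le_refl _) (unitv n v) hun
  have hUi : ∀ i < n + 1, (U.getD i []).length = n := by
    intro i hi
    rw [List.getD_eq_getElem _ _ (by omega)]
    exact hU' _ (List.getElem_mem _)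
  have hown : lv n (ownr n k U Φ v) ⟨v, hv⟩ = 1 := by
    unfold ownr
    rw [hc]
    simp only
    rw [lv_unitv]
    simp only [if_true]
    have h4 : ∑ l ∈ Finset.range k, c l * gv n (frm n Φ U k) l ⟨v, hv⟩ = 0 :=
      Finset.sum_eq_zero fun l hl => by
        rw [hvan l (by simpa using hl) ⟨v, hv⟩ (le_refl _), mul_zero]
    rw [h4]
    ring
  have hx : (mxv n U (ownr n k U Φ v)).val ≠ 0 := by
    intro h0
    have h5 := hspan (lv n (ownr n k U Φ v)) (by
      intro i
      have h6 := (amx_spec n U (ownr n k U Φ v)).2 i i.isLt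
      rw [h0, abs_zero] at h6
      have h61 : (ownr n k U Φ v).length = n := r1
      rw [dot_val _ n _ h61 (hUi i i.isLt)] at h6
      exact abs_nonpos_iff.1 h6)
    rw [h5] at hown
    simp at hown
  have hg : Good n (k + 1) U Φ (fr n k U Φ v) := good_prn h1 hU hU' (unitv n v) hun hx
  have hl := h1.tri.len
  have e1 : ∀ l < k, gv n (fr n k U Φ v) l = gv n (frm n Φ U k) l := by
    intro l hlk
    unfold gv fr
    rw [gE_append_lt _ _ _ (by omega)]
  have e2 : gv n (fr n k U Φ v) k = fun i => |(mxv n U (ownr n k U Φ v)).val|⁻¹ *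
      lv n (ownr n k U Φ v) i := by
    have h7 := gE_append_eq (frm n Φ U k) (prn n U (ownr n k U Φ v))
    rw [hl] at h7
    unfold gv fr
    rw [h7]
    show lv n (smul _ _) = _
    rw [lv_smul, Qn.val_inv, Qn.val_abs]
  have hm : (msc n k U Φ v).val = |(mxv n U (ownr n k U Φ v)).val| := by
    unfold msc
    rw [Qn.val_abs]
  have hpos : 0 < |(mxv n U (ownr n k U Φ v)).val| := abs_pos.2 hx
  refine ⟨hg.tri, fun j hj i => hg.bd j (by omega) i, fun j hj => hg.yy j (by omega), ?_, ?_, ?_,
    ?_⟩
  · intro j hj w hw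
    rw [e1 j hj]
    exact h2 j hj w hw
  · rw [hm]
    exact hpos
  · intro h8
    have h9 := congrFun h8 ⟨v, hv⟩
    rw [e2] at h9
    simp only [Pi.zero_apply] at h9
    rw [hown, mul_one] at h9
    exact (inv_pos.2 hpos).ne' h9
  · refine ⟨fun j => c j.val, fun x => ?_⟩
    rw [hm, e2]
    simp only
    rw [← mul_assoc, mul_inv_cancel₀ hpos.ne', one_mul]
    unfold ownr
    rw [hc]
    simp only
    rw [lv_unitv]
    congr 1
    rw [Finset.sum_range]
    refine Finset.sum_congr rfl fun j _ => ?_
    rw [e1 j.val j.isLt]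

end

end Pool.Agent.Helper77.BW
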